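import Pool.Agent.helper79.SX.Spec

/-!
# Project sx (MP_5628fe_nt): row OMG
-/

set_option autoImplicit false

open Finset ArithmeticFunction

namespace Pool.Agent.SX

theorem OMG_wt_nonneg {n p : ℕ} (hn : 2 ≤ n) (hp : 1 ≤ p) (hpn : p ≤ n) : 0 ≤ wt n p := by
  unfold wt
  have h1 : (0 : ℝ) < Real.log ((n : ℝ) + 1) := by
    apply Real.log_pos
    have : (2 : ℝ) ≤ n := by exact_mod_cast hn
    linarith
  have h2 : Real.log p ≤ Real.log ((n : ℝ) + 1) := by
    apply Real.log_le_log
    · exact_mod_cast hp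
    · have : (p : ℝ) ≤ n := by exact_mod_cast hpn
      linarith
  have h3 : Real.log p / Real.log ((n : ℝ) + 1) ≤ 1 := by
    rw [div_le_one h1]
    exact h2
  linarith

theorem OMG_key (n k : ℕ) (R : Finset ℕ) (hn : 2 ≤ n) (hk0 : 0 < k) (hk : k < (n + 1) ^ 3)
    (hR : ∀ p ∈ R, p.Prime ∧ p ≤ n)
    (hp : ∀ p : ℕ, p.Prime → p ∣ k → p ≤ n → p ∈ R ∧ ¬ p ^ 2 ∣ k) :
    (cardFactors k : ℝ) < 3 + ∑ p ∈ R.filter (fun p => p ∣ k), wt n p := by
  have hL : (0 : ℝ) < Real.log ((n : ℝ) + 1) := by
    apply Real.log_pos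
    have : (2 : ℝ) ≤ n := by exact_mod_cast hn
    linarith
  have hk0' : (0 : ℝ) < k := by exact_mod_cast hk0
  -- the logarithm
  have hlogk : Real.log k / Real.log ((n : ℝ) + 1) < 3 := by
    rw [div_lt_iff₀ hL]
    have h1 : Real.log k < Real.log (((n : ℝ) + 1) ^ 3) := by
      apply Real.log_lt_log hk0'
      exact_mod_cast hk
    rw [Real.log_pow] at h1
    exact_mod_cast h1
  have h1 : (cardFactors k : ℝ) = ∑ p ∈ k.primeFactors, (k.factorization p : ℝ) := by
    rw [cardFactors_eq_sum_factorization, Finsupp.sum, Nat.support_factorization]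
    push_cast
    rfl
  have h2 : Real.log k = ∑ p ∈ k.primeFactors, (k.factorization p : ℝ) * Real.log p := by
    rw [Real.log_nat_eq_sum_factorization, Finsupp.sum, Nat.support_factorization]
  have h3 : (cardFactors k : ℝ) - Real.log k / Real.log ((n : ℝ) + 1) =
      ∑ p ∈ k.primeFactors, (k.factorization p : ℝ) *
        (1 - Real.log p / Real.log ((n : ℝ) + 1)) := by
    rw [h1, h2, Finset.sum_div, ← Finset.sum_sub_distrib]
    apply Finset.sum_congr rfl
    intro p _
    ring
  have h4 : ∑ p ∈ k.primeFactors, (k.factorization p : ℝ) *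
        (1 - Real.log p / Real.log ((n : ℝ) + 1)) ≤
      ∑ p ∈ k.primeFactors, if p ≤ n then wt n p else 0 := by
    apply Finset.sum_le_sum
    intro p hpk
    have hpp : p.Prime := Nat.prime_of_mem_primeFactors hpk
    have hpd : p ∣ k := Nat.dvd_of_mem_primeFactors hpk
    by_cases hpn : p ≤ n
    · rw [if_pos hpn]
      obtain ⟨_, hsq⟩ := hp p hpp hpd hpn
      have hv : k.factorization p = 1 := by
        have h5 : 1 ≤ k.factorization p := by
          rw [← Nat.Prime.dvd_iff_one_le_factorization hpp hk0.ne']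
          exact hpd
        have h6 : k.factorization p < 2 := by
          by_contra hcon
          push Not at hcon
          exact hsq ((Nat.Prime.pow_dvd_iff_le_factorization hpp hk0.ne').mpr hcon)
        omega
      rw [hv]
      unfold wt
      push_cast
      linarith
    · rw [if_neg hpn]
      push Not at hpn
      apply mul_nonpos_of_nonneg_of_nonpos
      · exact Nat.cast_nonneg _
      · have h5 : Real.log ((n : ℝ) + 1) ≤ Real.log p := by
          apply Real.log_le_log
          · positivity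
          · exact_mod_cast hpn
        have h6 : 1 ≤ Real.log p / Real.log ((n : ℝ) + 1) := by
          rw [le_div_iff₀ hL]
          linarith
        linarith
  have h5 : ∑ p ∈ k.primeFactors, (if p ≤ n then wt n p else 0) ≤
      ∑ p ∈ R.filter (fun p => p ∣ k), wt n p := by
    rw [← Finset.sum_filter]
    apply Finset.sum_le_sum_of_subset_of_nonneg
    · intro p hpm
      rw [Finset.mem_filter] at hpm ⊢
      have hpp : p.Prime := Nat.prime_of_mem_primeFactors hpm.1
      have hpd : p ∣ k := Nat.dvd_of_mem_primeFactors hpm.1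
      exact ⟨(hp p hpp hpd hpm.2).1, hpd⟩
    · intro p hpm _
      rw [Finset.mem_filter] at hpm
      obtain ⟨hpp, hpn⟩ := hR p hpm.1
      exact OMG_wt_nonneg hn hpp.one_lt.le hpn
  linarith

theorem OMG : OMG_stmt := by
  intro n h m hn hh hm
  unfold Gd at hm
  rw [Finset.mem_filter] at hm
  obtain ⟨hmA, hmP, hmR, hmW⟩ := hm
  unfold An at hmA
  rw [Finset.mem_filter, Finset.mem_Ioc] at hmA
  obtain ⟨⟨hm1, hm2⟩, hm30⟩ := hmA
  have hm6 : m + 6 < (n + 1) ^ 3 := by
    have h1 : (n + 1) ^ 3 = n ^ 3 + 3 * n ^ 2 + 3 * n + 1 := by ring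
    have h2 : 4 ≤ n ^ 2 := by nlinarith
    omega
  have hm0 : 0 < m := lt_of_le_of_lt (Nat.zero_le _) hm1
  -- the primes in the range
  have hpow : ∀ p : ℕ, 2 ^ h ≤ p ^ 10 → 7 ≤ p := by
    intro p hp
    by_contra hcon
    push Not at hcon
    have h1 : p ≤ 6 := by omega
    have h2 : p ^ 10 ≤ 6 ^ 10 := Nat.pow_le_pow_left h1 10
    have h3 : 2 ^ 28 ≤ 2 ^ h := Nat.pow_le_pow_right (by norm_num) hh
    norm_num at h2 h3
    omega
  have hRg : ∀ p ∈ Rg n h, p.Prime ∧ p ≤ n ∧ 7 ≤ p := by
    intro p hp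
    unfold Rg at hp
    rw [Finset.mem_filter, Finset.mem_range] at hp
    exact ⟨hp.2.1, by omega, hpow p hp.2.2⟩
  -- the prime factors
  have hfac : ∀ p : ℕ, p.Prime → p ∣ m * (m + 6) → p ≤ n → p ∈ Rg n h := by
    intro p hp hd hpn
    have h7 : 7 ≤ p := by
      by_contra hcon
      push Not at hcon
      have hp2 := hp.two_le
      have h5 : p ∣ m ∨ p ∣ m + 6 := (Nat.Prime.dvd_mul hp).mp hd
      interval_cases p
      · omega
      · omega
      · revert hp; decide
      · omega
      · revert hp; decide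
    have h2 : 2 ^ h ≤ p ^ 10 := by
      by_contra hcon
      push Not at hcon
      apply hmP p _ hd
      unfold Pr
      rw [Finset.mem_filter, Finset.mem_range]
      refine ⟨?_, hp, h7, hcon⟩
      by_contra hcon2
      push Not at hcon2
      have h3 : (2 ^ (h / 10 + 1)) ^ 10 ≤ p ^ 10 := Nat.pow_le_pow_left hcon2 10
      rw [← pow_mul] at h3
      have h4 : 2 ^ h ≤ 2 ^ ((h / 10 + 1) * 10) := Nat.pow_le_pow_right (by norm_num) (by omega)
      omega
    unfold Rg
    rw [Finset.mem_filter, Finset.mem_range]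
    exact ⟨by omega, hp, h2⟩
  have hK1 := OMG_key n m (Rg n h) hn hm0 (by omega) (fun p hp => ⟨(hRg p hp).1, (hRg p hp).2.1⟩)
    (fun p hp hd hpn => by
      have h1 := hfac p hp (Dvd.dvd.mul_right hd _) hpn
      exact ⟨h1, (hmR p h1).1⟩)
  have hK2 := OMG_key n (m + 6) (Rg n h) hn (by omega) hm6
    (fun p hp => ⟨(hRg p hp).1, (hRg p hp).2.1⟩)
    (fun p hp hd hpn => by
      have h1 := hfac p hp (Dvd.dvd.mul_left hd _) hpn
      exact ⟨h1, (hmR p h1).2⟩)
  -- splitting the weight
  have hsplit : Wt n h m = ∑ p ∈ (Rg n h).filter (fun p => p ∣ m), wt n p +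
      ∑ p ∈ (Rg n h).filter (fun p => p ∣ m + 6), wt n p := by
    unfold Wt
    rw [← Finset.sum_union]
    · apply Finset.sum_congr _ (fun _ _ => rfl)
      ext p
      simp only [Finset.mem_filter, Finset.mem_union]
      constructor
      · rintro ⟨h1, h2⟩
        rcases (Nat.Prime.dvd_mul (hRg p h1).1).mp h2 with h3 | h3
        · exact Or.inl ⟨h1, h3⟩
        · exact Or.inr ⟨h1, h3⟩
      · rintro (⟨h1, h2⟩ | ⟨h1, h2⟩)
        · exact ⟨h1, Dvd.dvd.mul_right h2 _⟩
        · exact ⟨h1, Dvd.dvd.mul_left h2 _⟩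
    · rw [Finset.disjoint_left]
      intro p hp1 hp2
      rw [Finset.mem_filter] at hp1 hp2
      have h7 := (hRg p hp1.1).2.2
      have h6 : p ∣ 6 := by
        have := Nat.dvd_sub hp2.2 hp1.2
        rwa [Nat.add_sub_cancel_left] at this
      have := Nat.le_of_dvd (by norm_num) h6
      omega
  have hW1 : 0 ≤ ∑ p ∈ (Rg n h).filter (fun p => p ∣ m), wt n p := by
    apply Finset.sum_nonneg
    intro p hp
    rw [Finset.mem_filter] at hp
    exact OMG_wt_nonneg hn (hRg p hp.1).1.one_lt.le (hRg p hp.1).2.1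
  have hW2 : 0 ≤ ∑ p ∈ (Rg n h).filter (fun p => p ∣ m + 6), wt n p := by
    apply Finset.sum_nonneg
    intro p hp
    rw [Finset.mem_filter] at hp
    exact OMG_wt_nonneg hn (hRg p hp.1).1.one_lt.le (hRg p hp.1).2.1
  rw [hsplit] at hmW
  refine ⟨?_, ?_, ?_⟩
  · have h1 : (cardFactors m : ℝ) < 5 := by linarith
    have h2 : cardFactors m < 5 := by exact_mod_cast h1
    omega
  · have h1 : (cardFactors (m + 6) : ℝ) < 5 := by linarith
    have h2 : cardFactors (m + 6) < 5 := by exact_mod_cast h1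
    omega
  · have h1 : (cardFactors m : ℝ) + (cardFactors (m + 6) : ℝ) < 8 := by linarith
    have h2 : cardFactors m + cardFactors (m + 6) < 8 := by exact_mod_cast h1
    omega

end Pool.Agent.SX
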